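import Pool.Agent.H62.MV.FullDimension

/-!
# Counterexamples to the `t`-adic Littlewood conjecture with small growth functions

For every finite field `F` and every `lam > 0` the set of `Θ` in the unit ball of `F((t⁻¹))` with
`inf_N f(|N|) |N| |N|_t |⟨N Θ⟩| > 0`, where `f(q ^ k) = k ^ (1 + lam)`, has Hausdorff dimension `1`.

Outline.  Reveal the digits of `Θ` one after the other.  If the quantity is small for some `N`
then, for the divisor `c` of least degree `h` (after removing powers of `t`) annihilating the same
rows, `c` is determined by the digits of index `< T`, where `T = v + 2 h`, and the next `L(T)`
digits are forced by the recurrence `c`; here `q ^ L(T) ≈ (T+1) ^ (1+lam)`.  There are at most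
`T / 2 + 1` pairs `(v, h)` for a given `T`.  Rosenfeld's counting argument shows that the number of
admissible words of length `n` grows at least like `β ^ n` with `β = q ^ s`, `s < 1` close to `1`,
even if one also forbids a family of cylinders with small `s`-dimensional cost.  Hence the set
cannot be covered by sets of small `s`-dimensional cost, so that its `s`-dimensional Hausdorff
measure is positive.
-/

open Polynomial Finset

namespace Pool.Agent.Results.MP_26f5de_nt.FullDimension

open Pool.H62.MV.FullDimension

open scoped ENNReal NNReal in
/-- **The answer to Q1 is negative.**  For every finite field `F = 𝔽_q` and every `lam > 0` the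
set of counterexamples to the `t`-adic Littlewood conjecture with growth function
`log ^ (1 + lam)` has full Hausdorff dimension `1`. -/
theorem result (F : Type*) [Field F] [Fintype F] (lam : ℝ) (hlam : 0 < lam) :
    dimH (M F (growth lam)) = 1 :=
  Pool.H62.MV.FullDimension.result F lam hlam

end Pool.Agent.Results.MP_26f5de_nt.FullDimension
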